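import Mathlib

/-!
# Connectedness properties of an open book
-/

set_option autoImplicit false

namespace Pool.Agent.BourgeoisTorsion

open Set Topology Filter

/-- The (open) page over a point of the circle. -/
def page {M : Type*} (Φ : M → ℂ) (z : Circle) : Set M := {m | Φ m ≠ 0 ∧ Φ m = (‖Φ m‖ : ℂ) * z}

/-- The topological properties of the map defining an open book with connected pages. -/
structure IsBook {M : Type*} [TopologicalSpace M] (Φ : M → ℂ) : Prop where
  /-- the map is continuous -/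
  cont : Continuous Φ
  /-- the binding is not empty -/
  nonempty : ∃ m, Φ m = 0
  /-- the pages are connected -/
  conn : ∀ z : Circle, IsPreconnected (page Φ z)
  /-- the binding is in the closure of every page -/
  bdry : ∀ (z : Circle) (m : M), Φ m = 0 → m ∈ closure (page Φ z)
  /-- the fibration of the complement of the binding over the circle is an open map -/
  isOpen : ∀ U : Set M, IsOpen U → IsOpen {z : Circle | (U ∩ page Φ z).Nonempty}

theorem exists_circle (ζ : ℂ) : ∃ z : Circle, ζ = (‖ζ‖ : ℂ) * z :=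
  ⟨Circle.exp (Complex.arg ζ), by rw [Circle.coe_exp, Complex.norm_mul_exp_arg_mul_I]⟩

theorem circle_eq (w : ℂ) (hw : w ≠ 0) (z : Circle) (t : ℝ)
    (h : (z : ℂ) * w = (‖w‖ : ℂ) * Complex.exp (t * Complex.I)) :
    z = Circle.exp (t - Complex.arg w) := by
  apply Circle.ext
  rw [Circle.coe_exp]
  have h1 := Complex.norm_mul_exp_arg_mul_I w
  have h2 : (‖w‖ : ℂ) ≠ 0 := by exact_mod_cast (norm_pos_iff.2 hw).ne'
  have h3 : Complex.exp (Complex.arg w * Complex.I) ≠ 0 := Complex.exp_ne_zero _
  push_cast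
  rw [sub_mul, Complex.exp_sub, eq_div_iff h3]
  have h4 : (z : ℂ) * ((‖w‖ : ℂ) * Complex.exp (Complex.arg w * Complex.I)) =
      (‖w‖ : ℂ) * Complex.exp (t * Complex.I) := by rw [h1, h]
  have h5 : (‖w‖ : ℂ) * ((z : ℂ) * Complex.exp (Complex.arg w * Complex.I)) =
      (‖w‖ : ℂ) * Complex.exp (t * Complex.I) := by
    rw [← h4]
    ring
  exact mul_left_cancel₀ h2 h5

theorem circle_mul (w : ℂ) (t : ℝ) :
    (Circle.exp (t - Complex.arg w) : ℂ) * w = (‖w‖ : ℂ) * Complex.exp (t * Complex.I) := by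
  have h1 := Complex.norm_mul_exp_arg_mul_I w
  have h3 : Complex.exp (Complex.arg w * Complex.I) ≠ 0 := Complex.exp_ne_zero _
  rw [Circle.coe_exp]
  push_cast
  rw [sub_mul, Complex.exp_sub, div_mul_eq_mul_div, div_eq_iff h3]
  calc Complex.exp (t * Complex.I) * w
      = Complex.exp (t * Complex.I) * ((‖w‖ : ℂ) * Complex.exp (Complex.arg w * Complex.I)) := by
        rw [h1]
    _ = _ := by ring

/-- An open half circle is connected. -/
theorem half_circle (w : ℂ) (hw : w ≠ 0) :
    IsPreconnected {z : Circle | 0 < ((z : ℂ) * w).re} := by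
  have h1 : {z : Circle | 0 < ((z : ℂ) * w).re} =
      (fun t : ℝ => Circle.exp (t - Complex.arg w)) '' Ioo (-(Real.pi / 2)) (Real.pi / 2) := by
    ext z
    constructor
    · intro hz
      have hz' : 0 < ((z : ℂ) * w).re := hz
      have hne : (z : ℂ) * w ≠ 0 := by
        intro h
        rw [h] at hz'
        simp at hz'
      have h2 : |Complex.arg ((z : ℂ) * w)| < Real.pi / 2 :=
        Complex.abs_arg_lt_pi_div_two_iff.2 (Or.inl hz')
      refine ⟨Complex.arg ((z : ℂ) * w), abs_lt.1 h2, ?_⟩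
      refine (circle_eq w hw z _ ?_).symm
      have h3 := Complex.norm_mul_exp_arg_mul_I ((z : ℂ) * w)
      rw [norm_mul, Circle.norm_coe, one_mul] at h3
      exact h3.symm
    · rintro ⟨t, ht, rfl⟩
      have h2 : ((Circle.exp (t - Complex.arg w) : ℂ) * w).re = ‖w‖ * Real.cos t := by
        rw [circle_mul]
        rw [Complex.re_ofReal_mul, Complex.exp_ofReal_mul_I_re]
      show 0 < ((Circle.exp (t - Complex.arg w) : ℂ) * w).re
      rw [h2]
      exact mul_pos (norm_pos_iff.2 hw) (Real.cos_pos_of_mem_Ioo ht)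
  rw [h1]
  exact isPreconnected_Ioo.image _ (Circle.exp.continuous.comp
    (continuous_id.sub continuous_const)).continuousOn

variable {M : Type*} [TopologicalSpace M] {Φ : M → ℂ}

theorem page_re (w : ℂ) (z : Circle) (m : M) (hm : m ∈ page Φ z) :
    (Φ m * w).re = ‖Φ m‖ * ((z : ℂ) * w).re := by
  have h1 : Φ m * w = (‖Φ m‖ : ℂ) * ((z : ℂ) * w) := by
    rw [← mul_assoc, ← hm.2]
  rw [h1, Complex.re_ofReal_mul]

theorem page_nonempty (h : IsBook Φ) (z : Circle) : (page Φ z).Nonempty := by
  obtain ⟨m, hm⟩ := h.nonempty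
  exact closure_nonempty_iff.1 ⟨m, h.bdry z m hm⟩

theorem pos_preconnected (h : IsBook Φ) (w : ℂ) (hw : w ≠ 0) :
    IsPreconnected {m | 0 < (Φ m * w).re} := by
  intro U V hU hV hcov hUn hVn
  by_contra hcon
  have hsub : ∀ z : Circle, 0 < ((z : ℂ) * w).re → page Φ z ⊆ {m | 0 < (Φ m * w).re} := by
    intro z hz m hm
    show 0 < (Φ m * w).re
    rw [page_re w z m hm]
    exact mul_pos (norm_pos_iff.2 hm.1) hz
  have hne : ∀ O : Set M, ({m | 0 < (Φ m * w).re} ∩ O).Nonempty →
      ({z : Circle | 0 < ((z : ℂ) * w).re} ∩ {z : Circle | (O ∩ page Φ z).Nonempty}).Nonempty := by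
    rintro O ⟨m, hm, hmO⟩
    have hm' : 0 < (Φ m * w).re := hm
    have h0 : Φ m ≠ 0 := by
      intro h1
      rw [h1] at hm'
      simp at hm'
    obtain ⟨z, hz⟩ := exists_circle (Φ m)
    have hp : m ∈ page Φ z := ⟨h0, hz⟩
    refine ⟨z, ?_, m, hmO, hp⟩
    rw [page_re w z m hp] at hm'
    exact (mul_pos_iff_of_pos_left (norm_pos_iff.2 h0)).1 hm'
  have hcov' : {z : Circle | 0 < ((z : ℂ) * w).re} ⊆
      {z : Circle | (U ∩ page Φ z).Nonempty} ∪ {z : Circle | (V ∩ page Φ z).Nonempty} := by
    intro z hz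
    obtain ⟨m, hm⟩ := page_nonempty h z
    rcases hcov (hsub z hz hm) with h1 | h1
    · exact Or.inl ⟨m, h1, hm⟩
    · exact Or.inr ⟨m, h1, hm⟩
  obtain ⟨z, hz, hzU, hzV⟩ := half_circle w hw _ _ (h.isOpen U hU) (h.isOpen V hV) hcov'
    (hne U hUn) (hne V hVn)
  obtain ⟨m, hm, hmU, hmV⟩ := h.conn z U V hU hV ((hsub z hz).trans hcov)
    (by obtain ⟨x, hx1, hx2⟩ := hzU; exact ⟨x, hx2, hx1⟩)
    (by obtain ⟨x, hx1, hx2⟩ := hzV; exact ⟨x, hx2, hx1⟩)
  exact hcon ⟨m, hsub z hz hm, hmU, hmV⟩

theorem page_union (h : IsBook Φ) (z : Circle) : IsPreconnected (page Φ z ∪ {m | Φ m = 0}) :=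
  (h.conn z).subset_closure subset_union_left
    (union_subset subset_closure fun m hm => h.bdry z m hm)

theorem zero_preconnected (h : IsBook Φ) (w : ℂ) (hw : w ≠ 0) :
    IsPreconnected {m | (Φ m * w).re = 0} := by
  have h1 : {m | (Φ m * w).re = 0} =
      (page Φ (Circle.exp (Real.pi / 2 - Complex.arg w)) ∪ {m | Φ m = 0}) ∪
      (page Φ (Circle.exp (-(Real.pi / 2) - Complex.arg w)) ∪ {m | Φ m = 0}) := by
    ext m
    constructor
    · intro hm
      have hm' : (Φ m * w).re = 0 := hm
      by_cases h0 : Φ m = 0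
      · exact Or.inl (Or.inr h0)
      · obtain ⟨z, hz⟩ := exists_circle (Φ m)
        have hp : m ∈ page Φ z := ⟨h0, hz⟩
        rw [page_re w z m hp] at hm'
        have h2 : ((z : ℂ) * w).re = 0 := by
          rcases mul_eq_zero.1 hm' with h3 | h3
          · exact absurd (norm_eq_zero.1 h3) h0
          · exact h3
        have h3 : ‖(z : ℂ) * w‖ = ‖w‖ := by rw [norm_mul, Circle.norm_coe, one_mul]
        have h4 : ((z : ℂ) * w).im = ‖w‖ ∨ ((z : ℂ) * w).im = -‖w‖ := by
          have h5 : ((z : ℂ) * w).im ^ 2 = ‖w‖ ^ 2 := by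
            rw [← h3, ← Complex.normSq_eq_norm_sq, Complex.normSq_apply, h2]
            ring
          exact sq_eq_sq_iff_eq_or_eq_neg.1 h5
        rcases h4 with h4 | h4
        · left
          left
          have h5 : z = Circle.exp (Real.pi / 2 - Complex.arg w) := by
            refine circle_eq w hw z _ ?_
            apply Complex.ext
            · rw [h2, Complex.re_ofReal_mul, Complex.exp_ofReal_mul_I_re, Real.cos_pi_div_two,
                mul_zero]
            · rw [h4, Complex.im_ofReal_mul, Complex.exp_ofReal_mul_I_im, Real.sin_pi_div_two,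
                mul_one]
          rw [← h5]
          exact hp
        · right
          left
          have h5 : z = Circle.exp (-(Real.pi / 2) - Complex.arg w) := by
            refine circle_eq w hw z _ ?_
            apply Complex.ext
            · rw [h2, Complex.re_ofReal_mul, Complex.exp_ofReal_mul_I_re, Real.cos_neg,
                Real.cos_pi_div_two, mul_zero]
            · rw [h4, Complex.im_ofReal_mul, Complex.exp_ofReal_mul_I_im, Real.sin_neg,
                Real.sin_pi_div_two]
              ring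
          rw [← h5]
          exact hp
    · have hpage : ∀ t : ℝ, Real.cos t = 0 → ∀ m : M,
          m ∈ page Φ (Circle.exp (t - Complex.arg w)) → (Φ m * w).re = 0 := by
        intro t ht m hm
        rw [page_re w _ m hm, circle_mul, Complex.re_ofReal_mul, Complex.exp_ofReal_mul_I_re, ht]
        ring
      have hbind : ∀ m : M, Φ m = 0 → (Φ m * w).re = 0 := by
        intro m hm
        rw [hm]
        simp
      rintro ((hm | hm) | (hm | hm))
      · exact hpage _ Real.cos_pi_div_two m hm
      · exact hbind m hm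
      · exact hpage _ (by rw [Real.cos_neg, Real.cos_pi_div_two]) m hm
      · exact hbind m hm
  rw [h1]
  obtain ⟨m, hm⟩ := h.nonempty
  exact (page_union h _).union m (Or.inr hm) (Or.inr hm) (page_union h _)

theorem zero_subset_closure (h : IsBook Φ) (w : ℂ) (hw : w ≠ 0) :
    {m | (Φ m * w).re = 0} ⊆ closure {m | 0 < (Φ m * w).re} := by
  intro m hm
  have hm' : (Φ m * w).re = 0 := hm
  have hsub : ∀ z : Circle, 0 < ((z : ℂ) * w).re → page Φ z ⊆ {m | 0 < (Φ m * w).re} := by
    intro z hz m hm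
    show 0 < (Φ m * w).re
    rw [page_re w z m hm]
    exact mul_pos (norm_pos_iff.2 hm.1) hz
  by_cases h0 : Φ m = 0
  · have hz : 0 < ((Circle.exp (0 - Complex.arg w) : ℂ) * w).re := by
      have h1 := circle_mul w 0
      rw [h1, Complex.re_ofReal_mul, Complex.exp_ofReal_mul_I_re, Real.cos_zero, mul_one]
      exact norm_pos_iff.2 hw
    exact closure_mono (hsub _ hz) (h.bdry _ m h0)
  · obtain ⟨z, hz⟩ := exists_circle (Φ m)
    have hp : m ∈ page Φ z := ⟨h0, hz⟩
    rw [page_re w z m hp] at hm'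
    have h2 : ((z : ℂ) * w).re = 0 := by
      rcases mul_eq_zero.1 hm' with h3 | h3
      · exact absurd (norm_eq_zero.1 h3) h0
      · exact h3
    have him : ((z : ℂ) * w).im ≠ 0 := by
      intro h3
      have h4 : (z : ℂ) * w = 0 := Complex.ext h2 h3
      rcases mul_eq_zero.1 h4 with h5 | h5
      · exact (Circle.coe_ne_zero z) h5
      · exact hw h5
    rw [mem_closure_iff_nhds]
    intro O hO
    obtain ⟨O', hO'O, hO'o, hmO'⟩ := mem_nhds_iff.1 hO
    have hopen := h.isOpen O' hO'o
    have hzO : z ∈ {z : Circle | (O' ∩ page Φ z).Nonempty} := ⟨m, hmO', hp⟩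
    -- rotate a little
    have hrot : Continuous fun t : ℝ => Circle.exp t * z :=
      Circle.exp.continuous.mul continuous_const
    have hz0 : Circle.exp 0 * z = z := by simp
    have hev : ∀ᶠ t in 𝓝 (0 : ℝ), Circle.exp t * z ∈ {z : Circle | (O' ∩ page Φ z).Nonempty} :=
      (hrot.tendsto' 0 z hz0).eventually (hopen.mem_nhds hzO)
    have hre : ∀ t : ℝ, (((Circle.exp t * z : Circle) : ℂ) * w).re =
        -(Real.sin t * ((z : ℂ) * w).im) := by
      intro t
      rw [Circle.coe_mul, mul_assoc, Circle.coe_exp, Complex.mul_re, h2,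
        Complex.exp_ofReal_mul_I_im]
      ring
    obtain ⟨ε, hε, hball⟩ := Metric.eventually_nhds_iff.1 hev
    set s : ℝ := min (ε / 2) 1 with hs
    have hs0 : 0 < s := lt_min (by linarith) one_pos
    have hsε : s < ε := lt_of_le_of_lt (min_le_left _ _) (by linarith)
    have hsin : 0 < Real.sin s := Real.sin_pos_of_pos_of_lt_pi hs0
      (lt_of_le_of_lt (min_le_right _ _) (by linarith [Real.pi_gt_three]))
    have hfin : ∀ t : ℝ, |t| < ε → 0 < -(Real.sin t * ((z : ℂ) * w).im) →
        (O ∩ {m | 0 < (Φ m * w).re}).Nonempty := by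
      intro t ht hpos
      have h3 := hball (y := t) (by rw [Real.dist_eq, sub_zero]; exact ht)
      obtain ⟨x, hxO, hxp⟩ := h3
      refine ⟨x, hO'O hxO, hsub _ ?_ hxp⟩
      rw [hre t]
      exact hpos
    rcases lt_or_gt_of_ne him with h3 | h3
    · refine hfin s (by rw [abs_of_pos hs0]; exact hsε) ?_
      nlinarith
    · refine hfin (-s) (by rw [abs_neg, abs_of_pos hs0]; exact hsε) ?_
      rw [Real.sin_neg]
      nlinarith

end Pool.Agent.BourgeoisTorsion
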