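import Mathlib
import Pool.Agent.Lib.MP_d82af4_gt.Book

/-!
# Bourgeois forms and Giroux torsion domains

`M` and `N` are manifolds modelled on the same finite dimensional space `E`. A map into the torus is
given by two functions `x`, `y` with values in the unit circle of `ℂ`; a map from `N × ℝ × 𝕊¹` is
given by a map from `N × ℝ × ℝ` with period `2 π` in the last variable.
-/

set_option autoImplicit false

namespace Pool.Agent.BourgeoisTorsion

open Set Topology
open scoped Manifold ContDiff ComplexConjugate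

/-- The differential of a map between manifolds at `q`, for the tangent vector `w`. -/
noncomputable def differential {F G H H' X Y : Type} [NormedAddCommGroup F] [NormedSpace ℝ F]
    [NormedAddCommGroup G] [NormedSpace ℝ G] [TopologicalSpace H] [TopologicalSpace H']
    [TopologicalSpace X] [TopologicalSpace Y] [ChartedSpace H X] [ChartedSpace H' Y]
    (I : ModelWithCorners ℝ F H) (J : ModelWithCorners ℝ G H') (f : X → Y) (q : X) (w : F) : G :=
  mfderiv I J f q w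

variable {E : Type} [NormedAddCommGroup E] [NormedSpace ℝ E] {M N : Type}
  [TopologicalSpace M] [ChartedSpace E M] [TopologicalSpace N] [ChartedSpace E N]

variable (E) in
/-- Smooth maps from `N × ℝ × ℝ` to `M`. -/
def SmoothM (f : N × ℝ × ℝ → M) : Prop := ContMDiff (𝓘(ℝ, E).prod 𝓘(ℝ, ℝ × ℝ)) 𝓘(ℝ, E) ∞ f

variable (E) in
/-- The differential of such a map at `q`, for the tangent vector `w = (u, r', θ')`. -/
noncomputable def dM (f : N × ℝ × ℝ → M) (q : N × ℝ × ℝ) (w : E × ℝ × ℝ) : E :=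
  differential (𝓘(ℝ, E).prod 𝓘(ℝ, ℝ × ℝ)) 𝓘(ℝ, E) f q w

variable (E) in
/-- Smooth functions from `N × ℝ × ℝ` to `ℂ`. -/
def SmoothC (f : N × ℝ × ℝ → ℂ) : Prop := ContMDiff (𝓘(ℝ, E).prod 𝓘(ℝ, ℝ × ℝ)) 𝓘(ℝ, ℂ) ∞ f

variable (E) in
/-- The differential of such a function. -/
noncomputable def dC (f : N × ℝ × ℝ → ℂ) (q : N × ℝ × ℝ) (w : E × ℝ × ℝ) : ℂ :=
  differential (𝓘(ℝ, E).prod 𝓘(ℝ, ℝ × ℝ)) 𝓘(ℝ, ℂ) f q w

/-- The pull-back of the Bourgeois form `α + Φ₁ dx - Φ₂ dy` under `(g, x, y)`, where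
`Φ = Φ₁ + i Φ₂`, at the point `q` and for the tangent vector `w`. The angles are the arguments of
the functions `x` and `y` with values in the unit circle. -/
noncomputable def pullback (α : (m : M) → TangentSpace 𝓘(ℝ, E) m →L[ℝ] ℝ) (Φ : M → ℂ)
    (g : N × ℝ × ℝ → M) (x y : N × ℝ × ℝ → ℂ) (q : N × ℝ × ℝ) (w : E × ℝ × ℝ) : ℝ :=
  α (g q) (dM E g q w) + (Φ (g q)).re * (conj (x q) * dC E x q w).im -
    (Φ (g q)).im * (conj (y q) * dC E y q w).im

/-- The torsion form `(1 + cos r) α₊ + (1 - cos r) α₋ + 2 sin r dθ` on `N × ℝ × ℝ`. -/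
noncomputable def torsion (αp αm : (n : N) → TangentSpace 𝓘(ℝ, E) n →L[ℝ] ℝ)
    (q : N × ℝ × ℝ) (w : E × ℝ × ℝ) : ℝ :=
  (1 + Real.cos q.2.1) * αp q.1 w.1 + (1 - Real.cos q.2.1) * αm q.1 w.1 +
    2 * Real.sin q.2.1 * w.2.2

/-- `(g, x, y)` is a contact embedding of the domain `N × [0, b] × 𝕊¹` with the torsion form into
`M × 𝕋²` with the Bourgeois form: it is smooth up to the boundary, injective, an immersion, and
pulls back the second form to a multiple of the first one by a continuous function without zeros. -/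
structure IsContactEmbedding (αp αm : (n : N) → TangentSpace 𝓘(ℝ, E) n →L[ℝ] ℝ)
    (α : (m : M) → TangentSpace 𝓘(ℝ, E) m →L[ℝ] ℝ) (Φ : M → ℂ) (b : ℝ)
    (g : N × ℝ × ℝ → M) (x y : N × ℝ × ℝ → ℂ) : Prop where
  /-- smooth -/
  smooth : SmoothM E g ∧ SmoothC E x ∧ SmoothC E y
  /-- the last two components are in the circle -/
  norm : ∀ q, ‖x q‖ = 1 ∧ ‖y q‖ = 1
  /-- the last variable is in the circle -/
  periodic : ∀ n r t, g (n, r, t + 2 * Real.pi) = g (n, r, t) ∧
    x (n, r, t + 2 * Real.pi) = x (n, r, t) ∧ y (n, r, t + 2 * Real.pi) = y (n, r, t)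
  /-- injective -/
  inj : InjOn (fun q => (g q, x q, y q)) {q | q.2.1 ∈ Icc 0 b ∧ q.2.2 ∈ Ico 0 (2 * Real.pi)}
  /-- immersion -/
  immersion : ∀ q, q.2.1 ∈ Icc 0 b → ∀ w : E × ℝ × ℝ,
    dM E g q w = 0 → dC E x q w = 0 → dC E y q w = 0 → w = 0
  /-- contact -/
  contact : ∃ f : N × ℝ × ℝ → ℝ, ContinuousOn f {q | q.2.1 ∈ Icc 0 b} ∧
    ∀ q, q.2.1 ∈ Icc 0 b → f q ≠ 0 ∧
      ∀ w : E × ℝ × ℝ, pullback α Φ g x y q w = f q * torsion αp αm q w

end Pool.Agent.BourgeoisTorsion
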