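import Mathlib

/-!
# Winding integrals of closed curves in the circle
-/

set_option autoImplicit false

namespace Pool.Agent.BourgeoisTorsion

open Set Topology Filter MeasureTheory
open scoped ComplexConjugate

/-- The angular velocity of a curve in the circle. -/
noncomputable def vel (c : ℝ → ℂ) (t : ℝ) : ℝ := (conj (c t) * deriv c t).im

/-- The winding integral. -/
noncomputable def wind (c : ℝ → ℂ) : ℝ := ∫ t in (0 : ℝ)..2 * Real.pi, vel c t

theorem vel_continuous (c : ℝ → ℂ) (hc : ContDiff ℝ 1 c) : Continuous (vel c) := by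
  unfold vel
  exact Complex.continuous_im.comp ((Complex.continuous_conj.comp hc.continuous).mul
    (hc.continuous_deriv le_rfl))

theorem deriv_eq (c : ℝ → ℂ) (hc : ContDiff ℝ 1 c) (h1 : ∀ t, ‖c t‖ = 1) (t : ℝ) :
    deriv c t = Complex.I * vel c t * c t := by
  have hd : HasDerivAt c (deriv c t) t := (hc.differentiable one_ne_zero).differentiableAt.hasDerivAt
  have h2 : HasDerivAt (fun s => conj (c s) * c s) (conj (deriv c t) * c t +
      conj (c t) * deriv c t) t := hd.star.mul hd
  have h3 : (fun s => conj (c s) * c s) = fun _ => (1 : ℂ) := by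
    funext s
    rw [Complex.conj_mul', h1 s]
    norm_num
  rw [h3] at h2
  have h4 : conj (deriv c t) * c t + conj (c t) * deriv c t = 0 :=
    h2.unique (hasDerivAt_const t (1 : ℂ))
  have h5 : conj (c t) * c t = 1 := by
    rw [Complex.conj_mul', h1 t]
    norm_num
  have h6 : (conj (c t) * deriv c t).re = 0 := by
    have h7 := congrArg Complex.re h4
    simp only [Complex.add_re, Complex.mul_re, Complex.conj_re, Complex.conj_im,
      Complex.zero_re] at h7 ⊢
    linarith
  have h7 : conj (c t) * deriv c t = Complex.I * vel c t := by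
    apply Complex.ext
    · rw [h6]
      simp
    · unfold vel
      simp
  calc deriv c t = (conj (c t) * c t) * deriv c t := by rw [h5, one_mul]
    _ = (conj (c t) * deriv c t) * c t := by ring
    _ = _ := by rw [h7]

/-- Close closed curves have the same winding integral. -/
theorem wind_eq (c d : ℝ → ℂ) (hc : ContDiff ℝ 1 c) (hd : ContDiff ℝ 1 d) (h1 : ∀ t, ‖c t‖ = 1)
    (h2 : ∀ t, ‖d t‖ = 1) (hcp : c (2 * Real.pi) = c 0) (hdp : d (2 * Real.pi) = d 0)
    (hcd : ∀ t, ‖d t - c t‖ < 1) : wind c = wind d := by
  have hslit : ∀ t, conj (c t) * d t ∈ Complex.slitPlane := by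
    intro t
    left
    have h3 : conj (c t) * d t = 1 + conj (c t) * (d t - c t) := by
      have h5 : conj (c t) * c t = 1 := by
        rw [Complex.conj_mul', h1 t]
        norm_num
      calc conj (c t) * d t = conj (c t) * c t + conj (c t) * (d t - c t) := by ring
        _ = _ := by rw [h5]
    rw [h3]
    have h4 : ‖conj (c t) * (d t - c t)‖ < 1 := by
      rw [norm_mul, RCLike.norm_conj, h1 t, one_mul]
      exact hcd t
    have h5 := (abs_le.1 (Complex.abs_re_le_norm (conj (c t) * (d t - c t)))).1
    rw [Complex.add_re, Complex.one_re]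
    linarith
  have hderiv : ∀ t, HasDerivAt (fun s => Complex.log (conj (c s) * d s))
      (Complex.I * (vel d t - vel c t : ℝ)) t := by
    intro t
    have hc' : HasDerivAt c (deriv c t) t :=
      (hc.differentiable one_ne_zero).differentiableAt.hasDerivAt
    have hd' : HasDerivAt d (deriv d t) t :=
      (hd.differentiable one_ne_zero).differentiableAt.hasDerivAt
    have h3 : HasDerivAt (fun s => conj (c s) * d s)
        (conj (deriv c t) * d t + conj (c t) * deriv d t) t := hc'.star.mul hd'
    have h4 := h3.clog_real (hslit t)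
    convert h4 using 1
    rw [deriv_eq c hc h1 t, deriv_eq d hd h2 t]
    have h5 : conj (c t) * d t ≠ 0 := Complex.slitPlane_ne_zero (hslit t)
    rw [eq_div_iff h5]
    simp only [map_mul, Complex.conj_I, Complex.conj_ofReal]
    push_cast
    ring
  have hint : ∫ t in (0 : ℝ)..2 * Real.pi, (Complex.I * (vel d t - vel c t : ℝ)) = 0 := by
    rw [intervalIntegral.integral_eq_sub_of_hasDerivAt (fun t _ => hderiv t)]
    · rw [hcp, hdp, sub_self]
    · refine Continuous.intervalIntegrable ?_ _ _
      exact continuous_const.mul (Complex.continuous_ofReal.comp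
        ((vel_continuous d hd).sub (vel_continuous c hc)))
  rw [intervalIntegral.integral_const_mul] at hint
  have h3 : (∫ t in (0 : ℝ)..2 * Real.pi, ((vel d t - vel c t : ℝ) : ℂ)) = 0 := by
    rcases mul_eq_zero.1 hint with h | h
    · exact absurd h Complex.I_ne_zero
    · exact h
  rw [intervalIntegral.integral_ofReal] at h3
  have h4 : ∫ t in (0 : ℝ)..2 * Real.pi, (vel d t - vel c t) = 0 := by exact_mod_cast h3
  rw [intervalIntegral.integral_sub ((vel_continuous d hd).intervalIntegrable _ _)
    ((vel_continuous c hc).intervalIntegrable _ _)] at h4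
  unfold wind
  linarith

end Pool.Agent.BourgeoisTorsion
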