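import Mathlib
import Pool.Agent.Lib.MP_d82af4_gt.Def
import Pool.Agent.Lib.MP_d82af4_gt.Wind

/-!
# Derivatives along the circles, and the map into the product
-/

set_option autoImplicit false

namespace Pool.Agent.BourgeoisTorsion

open Set Topology
open scoped Manifold ContDiff ComplexConjugate

theorem contMDiff_coe : ContMDiff (𝓡 1) 𝓘(ℝ, ℂ) ∞ (fun x : Circle => (x : ℂ)) := by
  have : Fact (Module.finrank ℝ ℂ = 1 + 1) := Complex.finrank_real_complex_fact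
  exact contMDiff_coe_sphere

variable {E : Type} [NormedAddCommGroup E] [NormedSpace ℝ E] {M N : Type}
  [TopologicalSpace M] [ChartedSpace E M] [TopologicalSpace N] [ChartedSpace E N]

/-- The circle over a point of `N × ℝ`. -/
def cur (x : N × ℝ) (t : ℝ) : N × ℝ × ℝ := (x.1, x.2, t)

theorem cur_smooth (x : N × ℝ) :
    ContMDiff 𝓘(ℝ, ℝ) (𝓘(ℝ, E).prod 𝓘(ℝ, ℝ × ℝ)) ∞ (cur x) := by
  unfold cur
  refine contMDiff_const.prodMk ?_
  exact (contDiff_const.prodMk contDiff_id).contMDiff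

theorem cur_deriv (x : N × ℝ) (t : ℝ) :
    (mfderiv 𝓘(ℝ, ℝ) (𝓘(ℝ, E).prod 𝓘(ℝ, ℝ × ℝ)) (cur x) t (1 : ℝ) : E × ℝ × ℝ) =
      (0, 0, 1) := by
  have h1 : MDifferentiableAt 𝓘(ℝ, ℝ) 𝓘(ℝ, E) (fun _ : ℝ => x.1) t := mdifferentiableAt_const
  have h2 : MDifferentiableAt 𝓘(ℝ, ℝ) 𝓘(ℝ, ℝ × ℝ) (fun s : ℝ => (x.2, s)) t :=
    ((contDiff_const.prodMk contDiff_id).contMDiff (n := 1) t).mdifferentiableAt one_ne_zero
  have h3 := h1.mfderiv_prod h2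
  have h4 : (mfderiv 𝓘(ℝ, ℝ) 𝓘(ℝ, ℝ × ℝ) (fun s : ℝ => (x.2, s)) t (1 : ℝ) : ℝ × ℝ) = (0, 1) := by
    rw [mfderiv_eq_fderiv]
    have h5 : HasFDerivAt (fun s : ℝ => (x.2, s))
        ((0 : ℝ →L[ℝ] ℝ).prod (ContinuousLinearMap.id ℝ ℝ)) t :=
      (hasFDerivAt_const x.2 t).prodMk (hasFDerivAt_id t)
    rw [h5.fderiv]
    rfl
  have h6 : cur x = fun s => (x.1, (x.2, s)) := rfl
  rw [h6, h3]
  have h7 : (mfderiv 𝓘(ℝ, ℝ) 𝓘(ℝ, E) (fun _ : ℝ => x.1) t (1 : ℝ) : E) = 0 := by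
    rw [mfderiv_const]
    rfl
  exact Prod.ext h7 h4

/-- The differential of a map along the circle, in the direction of the circle. -/
theorem comp_deriv {F H X : Type} [NormedAddCommGroup F] [NormedSpace ℝ F] [TopologicalSpace H]
    [TopologicalSpace X] [ChartedSpace H X] (J : ModelWithCorners ℝ F H) (f : N × ℝ × ℝ → X)
    (hf : ContMDiff (𝓘(ℝ, E).prod 𝓘(ℝ, ℝ × ℝ)) J ∞ f) (x : N × ℝ) (t : ℝ) :
    (mfderiv (𝓘(ℝ, E).prod 𝓘(ℝ, ℝ × ℝ)) J f (cur x t) ((0, 0, 1) : E × ℝ × ℝ) : F) =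
      (mfderiv 𝓘(ℝ, ℝ) J (fun s => f (cur x s)) t (1 : ℝ) : F) := by
  have h1 := mfderiv_comp t (g := f) (f := cur x) (I := 𝓘(ℝ, ℝ))
    (I' := 𝓘(ℝ, E).prod 𝓘(ℝ, ℝ × ℝ)) (I'' := J) ((hf (cur x t)).mdifferentiableAt (by simp))
    ((cur_smooth x t).mdifferentiableAt (by simp))
  have h2 : (f ∘ cur x) = fun s => f (cur x s) := rfl
  rw [h2] at h1
  rw [h1, ← cur_deriv (E := E) x t]
  rfl

theorem dC_cur (x : N × ℝ × ℝ → ℂ) (hx : SmoothC E x) (p : N × ℝ) (t : ℝ) :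
    dC E x (cur p t) (0, 0, 1) = deriv (fun s => x (cur p s)) t := by
  unfold dC differential
  rw [comp_deriv _ x hx p t, mfderiv_eq_fderiv]
  rfl

theorem dM_cur (g : N × ℝ × ℝ → M) (hg : SmoothM E g) (p : N × ℝ)
    (hfib : ∀ t s, g (cur p t) = g (cur p s)) (t : ℝ) : dM E g (cur p t) (0, 0, 1) = 0 := by
  unfold dM differential
  rw [comp_deriv _ g hg p t]
  have h1 : (fun s => g (cur p s)) = fun _ => g (cur p 0) := by
    funext s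
    exact hfib s 0
  rw [h1, mfderiv_const]
  rfl

theorem c_smooth (x : N × ℝ × ℝ → ℂ) (hx : SmoothC E x) (p : N × ℝ) :
    ContDiff ℝ 1 (fun t => x (cur p t)) := by
  have h1 : ContMDiff 𝓘(ℝ, ℝ) 𝓘(ℝ, ℂ) ∞ (fun t => x (cur p t)) := hx.comp (cur_smooth p)
  exact h1.contDiff.of_le (by simp)

/-- The Bourgeois form along a circle whose image lies over one point of `M`. -/
theorem pullback_cur (α : (m : M) → TangentSpace 𝓘(ℝ, E) m →L[ℝ] ℝ) (Φ : M → ℂ)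
    (g : N × ℝ × ℝ → M) (x y : N × ℝ × ℝ → ℂ) (hg : SmoothM E g) (hx : SmoothC E x)
    (hy : SmoothC E y) (p : N × ℝ) (hfib : ∀ t s, g (cur p t) = g (cur p s)) (t : ℝ) :
    pullback α Φ g x y (cur p t) (0, 0, 1) =
      (Φ (g (cur p 0))).re * vel (fun s => x (cur p s)) t -
        (Φ (g (cur p 0))).im * vel (fun s => y (cur p s)) t := by
  unfold pullback
  rw [dM_cur g hg p hfib t, dC_cur x hx p t, dC_cur y hy p t]
  have h9 : α (g (cur p t)) (0 : E) = 0 := map_zero (α (g (cur p t)))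
  rw [h9, hfib t 0]
  unfold vel
  ring

theorem torsion_cur (αp αm : (n : N) → TangentSpace 𝓘(ℝ, E) n →L[ℝ] ℝ) (p : N × ℝ) (t : ℝ) :
    torsion αp αm (cur p t) (0, 0, 1) = 2 * Real.sin p.2 := by
  unfold torsion
  have h1 : αp (cur p t).1 (0 : E) = 0 := map_zero (αp (cur p t).1)
  have h2 : αm (cur p t).1 (0 : E) = 0 := map_zero (αm (cur p t).1)
  simp only [h1, h2]
  have h3 : (cur p t).2.1 = p.2 := rfl
  rw [h3]
  ring

/-! ### The map into `M × Circle × Circle` -/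

/-- A function with values in the unit circle, as a map into the circle. -/
def toC (x : N × ℝ × ℝ → ℂ) (hx : ∀ q, ‖x q‖ = 1) (q : N × ℝ × ℝ) : Circle :=
  ⟨x q, mem_sphere_zero_iff_norm.2 (hx q)⟩

theorem toC_coe (x : N × ℝ × ℝ → ℂ) (hx : ∀ q, ‖x q‖ = 1) (q : N × ℝ × ℝ) :
    ((toC x hx q : Circle) : ℂ) = x q := rfl

theorem toC_smooth [IsManifold 𝓘(ℝ, E) ∞ N] (x : N × ℝ × ℝ → ℂ) (hx : ∀ q, ‖x q‖ = 1) (hs : SmoothC E x) :
    ContMDiff (𝓘(ℝ, E).prod 𝓘(ℝ, ℝ × ℝ)) (𝓡 1) ∞ (toC x hx) := by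
  have : Fact (Module.finrank ℝ ℂ = 1 + 1) := Complex.finrank_real_complex_fact
  exact ContMDiff.codRestrict_sphere hs fun q => mem_sphere_zero_iff_norm.2 (hx q)

theorem toC_deriv [IsManifold 𝓘(ℝ, E) ∞ N] (x : N × ℝ × ℝ → ℂ) (hx : ∀ q, ‖x q‖ = 1) (hs : SmoothC E x) (q : N × ℝ × ℝ)
    (w : E × ℝ × ℝ)
    (h : mfderiv (𝓘(ℝ, E).prod 𝓘(ℝ, ℝ × ℝ)) (𝓡 1) (toC x hx) q w = 0) : dC E x q w = 0 := by
  have h1 := mfderiv_comp q (g := fun z : Circle => (z : ℂ)) (f := toC x hx)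
    ((contMDiff_coe _).mdifferentiableAt (by simp))
    ((toC_smooth x hx hs q).mdifferentiableAt (by simp))
  have h2 : ((fun z : Circle => (z : ℂ)) ∘ toC x hx) = x := rfl
  rw [h2] at h1
  unfold dC differential
  rw [h1]
  have h3 : (mfderiv (𝓡 1) 𝓘(ℝ, ℂ) (fun z : Circle => (z : ℂ)) (toC x hx q))
      (mfderiv (𝓘(ℝ, E).prod 𝓘(ℝ, ℝ × ℝ)) (𝓡 1) (toC x hx) q w) = 0 := by
    rw [h]
    exact map_zero _
  exact h3

end Pool.Agent.BourgeoisTorsion
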