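import Mathlib

/-!
# Maps with surjective differential are open
-/

set_option autoImplicit false

namespace Pool.Agent.BourgeoisTorsion

open Set Topology Filter
open scoped Manifold ContDiff

theorem map_nhds_of_surj {E F : Type*} [NormedAddCommGroup E] [NormedSpace ℝ E] [CompleteSpace E]
    [NormedAddCommGroup F] [NormedSpace ℝ F] [CompleteSpace F] {H G : Type*} [TopologicalSpace H]
    [TopologicalSpace G] {I : ModelWithCorners ℝ E H} {J : ModelWithCorners ℝ F G}
    [I.Boundaryless] [J.Boundaryless] {X Y : Type*} [TopologicalSpace X] [ChartedSpace H X]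
    [TopologicalSpace Y] [ChartedSpace G Y] (f : X → Y) (hf : ContMDiff I J 1 f) (x : X)
    (hs : Function.Surjective (mfderiv I J f x)) : map f (𝓝 x) = 𝓝 (f x) := by
  have h1 := contMDiffAt_iff.1 (hf x)
  rw [I.range_eq_univ, contDiffWithinAt_univ] at h1
  set g : E → F := extChartAt J (f x) ∘ f ∘ (extChartAt I x).symm with hg
  have h2 : mfderiv I J f x = fderiv ℝ g (extChartAt I x x) := by
    have h3 := ((hf x).mdifferentiableAt one_ne_zero).mfderiv
    rw [I.range_eq_univ, fderivWithin_univ] at h3
    exact h3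
  have h4 : HasStrictFDerivAt g (fderiv ℝ g (extChartAt I x x)) (extChartAt I x x) :=
    h1.2.hasStrictFDerivAt one_ne_zero
  have h5 := h4.map_nhds_eq_of_surj (by
    rw [LinearMap.range_eq_top]
    rw [h2] at hs
    exact hs)
  have h6 : map (extChartAt I x) (𝓝 x) = 𝓝 (extChartAt I x x) :=
    map_extChartAt_nhds_of_boundaryless x
  have h7 : map (extChartAt J (f x)) (map f (𝓝 x)) = 𝓝 (extChartAt J (f x) (f x)) := by
    have h8 : map (extChartAt J (f x)) (map f (𝓝 x)) = map g (map (extChartAt I x) (𝓝 x)) := by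
      rw [Filter.map_map, Filter.map_map]
      refine Filter.map_congr ?_
      filter_upwards [extChartAt_source_mem_nhds (I := I) x] with y hy
      simp only [hg, Function.comp_apply]
      rw [(extChartAt I x).left_inv hy]
    rw [h8, h6, h5, hg]
    simp only [Function.comp_apply]
    rw [(extChartAt I x).left_inv (mem_extChartAt_source x)]
  have h9 : map f (𝓝 x) ≤ 𝓝 (f x) := h1.1
  have hsrcJ : (extChartAt J (f x)).source ∈ 𝓝 (f x) := extChartAt_source_mem_nhds _
  refine le_antisymm h9 ?_
  have h10 : map (extChartAt J (f x)) (𝓝 (f x)) = map (extChartAt J (f x)) (map f (𝓝 x)) := by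
    rw [h7]
    exact map_extChartAt_nhds_of_boundaryless (f x)
  intro s hs'
  have hs2 : s ∩ (extChartAt J (f x)).source ∈ map f (𝓝 x) := Filter.inter_mem hs' (h9 hsrcJ)
  have h11 : (extChartAt J (f x)) '' (s ∩ (extChartAt J (f x)).source) ∈
      map (extChartAt J (f x)) (𝓝 (f x)) := by
    rw [h10]
    exact Filter.image_mem_map hs2
  rw [mem_map] at h11
  filter_upwards [h11, hsrcJ] with y hy hyS
  obtain ⟨z, hz, hzy⟩ := hy
  have h12 := (extChartAt J (f x)).injOn hz.2 hyS hzy
  rw [← h12]
  exact hz.1

end Pool.Agent.BourgeoisTorsion
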