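import Mathlib

/-!
# The topological core

A half torsion domain cannot fill one side of a connected dividing set.
-/

set_option autoImplicit false

namespace Pool.Agent.BourgeoisTorsion

open Set Topology Filter

theorem topo_core {N W : Type*} [TopologicalSpace N] [CompactSpace N] [Nonempty N]
    [TopologicalSpace W] [T2Space W]
    (ψ : N × ℝ × ℝ → W) (hψ : Continuous ψ) (P : ℝ) (hP : 0 < P)
    (hper : ∀ n r t, ψ (n, r, t + P) = ψ (n, r, t)) (H : W → ℝ) (b : ℝ) (hb : 0 < b)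
    (hinj : ∀ q q' : N × ℝ × ℝ, q.2.1 ∈ Icc 0 b → q'.2.1 ∈ Icc 0 b → ψ q = ψ q' → q.2.1 = q'.2.1)
    (hpos : ∀ q : N × ℝ × ℝ, q.2.1 ∈ Ioo 0 b → 0 < H (ψ q))
    (hzero : ∀ q : N × ℝ × ℝ, q.2.1 = 0 ∨ q.2.1 = b → H (ψ q) = 0)
    (hopen : ∀ q : N × ℝ × ℝ, q.2.1 ∈ Ioo 0 b → map ψ (𝓝 q) = 𝓝 (ψ q))
    (hU : IsPreconnected {p | 0 < H p}) (hZ : IsPreconnected {p | H p = 0})
    (hcl : {p | H p = 0} ⊆ closure {p | 0 < H p}) : False := by
  have hcont : Continuous fun q : N × ℝ × ℝ => q.2.1 := continuous_snd.fst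
  set O : Set (N × ℝ × ℝ) := {q | q.2.1 ∈ Ioo 0 b} with hO
  have hOopen : IsOpen (ψ '' O) := by
    rw [isOpen_iff_mem_nhds]
    rintro _ ⟨q, hq, rfl⟩
    rw [← hopen q hq, mem_map]
    have h1 : O ∈ 𝓝 q := (isOpen_Ioo.preimage hcont).mem_nhds hq
    exact Filter.mem_of_superset h1 fun x hx => ⟨x, hx, rfl⟩
  have hcomp : ∀ s : Set ℝ, IsCompact s → IsCompact (ψ '' {q | q.2.1 ∈ s}) := by
    intro s hs
    have h1 : ψ '' {q | q.2.1 ∈ s} = ψ '' ((univ : Set N) ×ˢ (s ×ˢ Icc 0 P)) := by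
      apply Subset.antisymm
      · rintro _ ⟨⟨n, r, t⟩, hq, rfl⟩
        have h2 : Function.Periodic (fun u => ψ (n, r, u)) P := fun u => hper n r u
        obtain ⟨u, hu, hu2⟩ := h2.exists_mem_Ico₀ hP t
        exact ⟨(n, r, u), ⟨mem_univ _, hq, hu.1, hu.2.le⟩, hu2.symm⟩
      · rintro _ ⟨q, hq, rfl⟩
        exact ⟨q, hq.2.1, rfl⟩
    rw [h1]
    exact (isCompact_univ.prod (hs.prod isCompact_Icc)).image hψ
  have hCc : IsClosed (ψ '' {q | q.2.1 ∈ Icc 0 b}) := (hcomp _ isCompact_Icc).isClosed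
  have hne : ∀ r : ℝ, ∃ q : N × ℝ × ℝ, q.2.1 = r := fun r =>
    ⟨(Classical.arbitrary N, r, 0), rfl⟩
  -- the positive side is filled
  have hfill : {p | 0 < H p} ⊆ ψ '' O := by
    by_contra hcon
    obtain ⟨p, hp, hpO⟩ := not_subset.1 hcon
    have hcov : {p | 0 < H p} ⊆ ψ '' O ∪ (ψ '' {q | q.2.1 ∈ Icc 0 b})ᶜ := by
      intro x hx
      by_cases h1 : x ∈ ψ '' {q | q.2.1 ∈ Icc 0 b}
      · left
        obtain ⟨q, hq, rfl⟩ := h1
        refine ⟨q, ⟨lt_of_le_of_ne hq.1 ?_, lt_of_le_of_ne hq.2 ?_⟩, rfl⟩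
        · intro h2
          have h3 := hzero q (Or.inl h2.symm)
          have h4 : 0 < H (ψ q) := hx
          linarith
        · intro h2
          have h3 := hzero q (Or.inr h2)
          have h4 : 0 < H (ψ q) := hx
          linarith
      · exact Or.inr h1
    obtain ⟨q, hq⟩ := hne (b / 2)
    have hqO : q ∈ O := by
      refine ⟨?_, ?_⟩ <;> rw [hq] <;> linarith
    obtain ⟨x, _, hx1, hx2⟩ := hU _ _ hOopen hCc.isOpen_compl hcov
      ⟨ψ q, hpos q hqO, mem_image_of_mem _ hqO⟩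
      ⟨p, hp, fun hpC => (hcov hp).elim (fun h => hpO h) fun h => h hpC⟩
    obtain ⟨y, hy, rfl⟩ := hx1
    exact hx2 ⟨y, ⟨hy.1.le, hy.2.le⟩, rfl⟩
  -- the dividing set is the union of the two ends
  have hZsub : {p | H p = 0} ⊆ ψ '' {q | q.2.1 ∈ ({0} : Set ℝ)} ∪ ψ '' {q | q.2.1 ∈ ({b} : Set ℝ)} := by
    intro x hx
    have h1 : x ∈ ψ '' {q | q.2.1 ∈ Icc 0 b} := by
      have h2 : closure {p | 0 < H p} ⊆ ψ '' {q | q.2.1 ∈ Icc 0 b} := by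
        refine closure_minimal (hfill.trans (image_mono ?_)) hCc
        exact fun q hq => ⟨hq.1.le, hq.2.le⟩
      exact h2 (hcl hx)
    obtain ⟨q, hq, rfl⟩ := h1
    rcases hq.1.lt_or_eq with h2 | h2
    · rcases hq.2.lt_or_eq with h3 | h3
      · have h4 := hpos q ⟨h2, h3⟩
        have h5 : H (ψ q) = 0 := hx
        linarith
      · exact Or.inr ⟨q, h3, rfl⟩
    · exact Or.inl ⟨q, h2.symm, rfl⟩
  obtain ⟨q0, hq0⟩ := hne 0
  obtain ⟨q1, hq1⟩ := hne b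
  obtain ⟨x, _, hx0, hx1⟩ := isPreconnected_closed_iff.1 hZ _ _
    (hcomp _ isCompact_singleton).isClosed (hcomp _ isCompact_singleton).isClosed hZsub
    ⟨ψ q0, hzero q0 (Or.inl hq0), ⟨q0, hq0, rfl⟩⟩ ⟨ψ q1, hzero q1 (Or.inr hq1), ⟨q1, hq1, rfl⟩⟩
  obtain ⟨y0, hy0, rfl⟩ := hx0
  obtain ⟨y1, hy1, hy⟩ := hx1
  have h0 : y0.2.1 = 0 := hy0
  have h1 : y1.2.1 = b := hy1
  have h2 := hinj y1 y0 (by rw [h1]; exact ⟨hb.le, le_rfl⟩) (by rw [h0]; exact ⟨le_rfl, hb.le⟩) hy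
  rw [h0, h1] at h2
  linarith

end Pool.Agent.BourgeoisTorsion
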