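import Mathlib
import Pool.Agent.Lib.MP_d82af4_gt.Chain
import Pool.Agent.Lib.MP_d82af4_gt.Ift
import Pool.Agent.Lib.MP_d82af4_gt.Topo

/-!
# No fibred half torsion domain in a Bourgeois manifold
-/

set_option autoImplicit false

namespace Pool.Agent.BourgeoisTorsion

open Set Topology Filter
open scoped Manifold ContDiff ComplexConjugate

theorem surj_of_inj {A B : Type*} [NormedAddCommGroup A] [NormedSpace ℝ A]
    [FiniteDimensional ℝ A] [NormedAddCommGroup B] [NormedSpace ℝ B] [FiniteDimensional ℝ B]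
    (h : Module.finrank ℝ A = Module.finrank ℝ B) (T : A →L[ℝ] B) (hi : Function.Injective T) :
    Function.Surjective T :=
  (LinearMap.injective_iff_surjective_of_finrank_eq_finrank h (f := (T : A →ₗ[ℝ] B))).1 hi

/-- The winding integrals do not depend on the circle. -/
theorem wind_locConst {N : Type} [TopologicalSpace N] (g : N × ℝ × ℝ → ℂ) (hg : Continuous g)
    (hper : ∀ n r t, g (n, r, t + 2 * Real.pi) = g (n, r, t))
    (hc : ∀ p : N × ℝ, ContDiff ℝ 1 fun t => g (cur p t)) (h1 : ∀ q, ‖g q‖ = 1) :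
    IsLocallyConstant fun p : N × ℝ => wind fun t => g (cur p t) := by
  rw [IsLocallyConstant.iff_eventually_eq]
  intro x
  have h2 : ∀ᶠ y in 𝓝 x, ∀ t ∈ Icc (0 : ℝ) (2 * Real.pi),
      ‖g (y.1, y.2, t) - g (x.1, x.2, t)‖ < 1 := by
    refine isCompact_Icc.eventually_forall_of_forall_eventually
      (P := fun (y : N × ℝ) (t : ℝ) => ‖g (y.1, y.2, t) - g (x.1, x.2, t)‖ < 1) ?_
    intro z _
    have h3 : Continuous fun u : (N × ℝ) × ℝ =>
        ‖g (u.1.1, u.1.2, u.2) - g (x.1, x.2, u.2)‖ := by fun_prop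
    have h4 : Tendsto (fun u : (N × ℝ) × ℝ => ‖g (u.1.1, u.1.2, u.2) - g (x.1, x.2, u.2)‖)
        (𝓝 (x, z)) (𝓝 0) := by
      refine h3.tendsto' _ _ ?_
      simp
    exact h4.eventually (gt_mem_nhds one_pos)
  have hend : ∀ y : N × ℝ, g (cur y (2 * Real.pi)) = g (cur y 0) := by
    intro y
    have h3 := hper y.1 y.2 0
    rw [zero_add] at h3
    exact h3
  filter_upwards [h2] with y hy
  refine (wind_eq (fun t => g (cur x t)) (fun t => g (cur y t)) (hc x) (hc y) (fun t => h1 _)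
    (fun t => h1 _) (hend x) (hend y) fun t => ?_).symm
  have h5 : Function.Periodic (fun t => g (y.1, y.2, t) - g (x.1, x.2, t)) (2 * Real.pi) := by
    intro u
    show g (y.1, y.2, u + 2 * Real.pi) - g (x.1, x.2, u + 2 * Real.pi) = _
    rw [hper, hper]
  obtain ⟨u, hu, hu2⟩ := h5.exists_mem_Ico₀ Real.two_pi_pos t
  have hu3 : g (y.1, y.2, t) - g (x.1, x.2, t) = g (y.1, y.2, u) - g (x.1, x.2, u) := hu2
  show ‖g (y.1, y.2, t) - g (x.1, x.2, t)‖ < 1
  rw [hu3]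
  exact hy u ⟨hu.1, hu.2.le⟩

variable {E : Type} [NormedAddCommGroup E] [NormedSpace ℝ E] {M N : Type}
  [TopologicalSpace M] [ChartedSpace E M] [TopologicalSpace N] [ChartedSpace E N]

/-- The map into `M × Circle × Circle`. -/
def toW (g : N × ℝ × ℝ → M) (x y : N × ℝ × ℝ → ℂ) (h : ∀ q, ‖x q‖ = 1 ∧ ‖y q‖ = 1)
    (q : N × ℝ × ℝ) : M × Circle × Circle :=
  (g q, toC x (fun q => (h q).1) q, toC y (fun q => (h q).2) q)

theorem toW_smooth [IsManifold 𝓘(ℝ, E) ∞ N] (g : N × ℝ × ℝ → M) (x y : N × ℝ × ℝ → ℂ)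
    (h : ∀ q, ‖x q‖ = 1 ∧ ‖y q‖ = 1) (hg : SmoothM E g) (hx : SmoothC E x) (hy : SmoothC E y) :
    ContMDiff (𝓘(ℝ, E).prod 𝓘(ℝ, ℝ × ℝ)) (𝓘(ℝ, E).prod ((𝓡 1).prod (𝓡 1))) ∞ (toW g x y h) := by
  unfold toW
  exact ContMDiff.prodMk hg ((toC_smooth x _ hx).prodMk (toC_smooth y _ hy))

theorem toW_deriv [IsManifold 𝓘(ℝ, E) ∞ N] (g : N × ℝ × ℝ → M) (x y : N × ℝ × ℝ → ℂ)
    (h : ∀ q, ‖x q‖ = 1 ∧ ‖y q‖ = 1) (hg : SmoothM E g) (hx : SmoothC E x) (hy : SmoothC E y)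
    (q : N × ℝ × ℝ) (w : E × ℝ × ℝ)
    (h0 : mfderiv (𝓘(ℝ, E).prod 𝓘(ℝ, ℝ × ℝ)) (𝓘(ℝ, E).prod ((𝓡 1).prod (𝓡 1)))
      (toW g x y h) q w = 0) :
    dM E g q w = 0 ∧ dC E x q w = 0 ∧ dC E y q w = 0 := by
  have hg' : MDifferentiableAt (𝓘(ℝ, E).prod 𝓘(ℝ, ℝ × ℝ)) 𝓘(ℝ, E) g q :=
    (hg q).mdifferentiableAt (by simp)
  have hx' : MDifferentiableAt (𝓘(ℝ, E).prod 𝓘(ℝ, ℝ × ℝ)) (𝓡 1) (toC x fun q => (h q).1) q :=
    (toC_smooth x _ hx q).mdifferentiableAt (by simp)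
  have hy' : MDifferentiableAt (𝓘(ℝ, E).prod 𝓘(ℝ, ℝ × ℝ)) (𝓡 1) (toC y fun q => (h q).2) q :=
    (toC_smooth y _ hy q).mdifferentiableAt (by simp)
  have h1 := hx'.mfderiv_prod hy'
  have h2 := hg'.mfderiv_prod (hx'.prodMk hy')
  have h3 : toW g x y h = fun q => (g q, (toC x (fun q => (h q).1) q,
    toC y (fun q => (h q).2) q)) := rfl
  rw [h3, h2] at h0
  have h4 := congrArg Prod.fst h0
  have h5 := congrArg Prod.snd h0
  refine ⟨h4, ?_⟩
  have h6 : mfderiv (𝓘(ℝ, E).prod 𝓘(ℝ, ℝ × ℝ)) ((𝓡 1).prod (𝓡 1))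
      (fun q => (toC x (fun q => (h q).1) q, toC y (fun q => (h q).2) q)) q w = 0 := h5
  rw [h1] at h6
  have h7 := congrArg Prod.fst h6
  have h8 := congrArg Prod.snd h6
  exact ⟨toC_deriv x _ hx q w h7, toC_deriv y _ hy q w h8⟩

/-- **The main theorem.** -/
theorem no_fibred [FiniteDimensional ℝ E] [IsManifold 𝓘(ℝ, E) ∞ N] [ConnectedSpace N]
    [CompactSpace N] [T2Space M] (Φ : M → ℂ) (hΦ : IsBook Φ)
    (α : (m : M) → TangentSpace 𝓘(ℝ, E) m →L[ℝ] ℝ)
    (αp αm : (n : N) → TangentSpace 𝓘(ℝ, E) n →L[ℝ] ℝ)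
    (g : N × ℝ × ℝ → M) (x y : N × ℝ × ℝ → ℂ)
    (hψ : IsContactEmbedding αp αm α Φ Real.pi g x y)
    (hfib : ∀ (n : N) (r : ℝ), r ∈ Icc 0 Real.pi → ∀ t t' : ℝ, g (n, r, t) = g (n, r, t')) :
    False := by
  have : CompleteSpace E := FiniteDimensional.complete ℝ E
  obtain ⟨hg, hx, hy⟩ := hψ.smooth
  have hnorm := hψ.norm
  obtain ⟨f, hf, hf2⟩ := hψ.contact
  set ψ : N × ℝ × ℝ → M × Circle × Circle := toW g x y hnorm with hψdef
  have hs : ContMDiff (𝓘(ℝ, E).prod 𝓘(ℝ, ℝ × ℝ)) (𝓘(ℝ, E).prod ((𝓡 1).prod (𝓡 1))) ∞ ψ :=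
    toW_smooth g x y hnorm hg hx hy
  have hcont : Continuous ψ := hs.continuous
  -- the winding vector
  have hgx : Continuous x := hx.continuous
  have hgy : Continuous y := hy.continuous
  have hlx := wind_locConst x hgx (fun n r t => (hψ.periodic n r t).2.1) (c_smooth x hx)
    (fun q => (hnorm q).1)
  have hly := wind_locConst y hgy (fun n r t => (hψ.periodic n r t).2.2) (c_smooth y hy)
    (fun q => (hnorm q).2)
  obtain ⟨n₀⟩ : Nonempty N := inferInstance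
  set a : ℝ := wind (fun t => x (cur (n₀, 0) t)) with ha
  set b : ℝ := wind (fun t => y (cur (n₀, 0) t)) with hb
  have hax : ∀ p : N × ℝ, wind (fun t => x (cur p t)) = a :=
    fun p => hlx.apply_eq_of_preconnectedSpace p (n₀, 0)
  have hby : ∀ p : N × ℝ, wind (fun t => y (cur p t)) = b :=
    fun p => hly.apply_eq_of_preconnectedSpace p (n₀, 0)
  -- the integrated identity
  have hint : ∀ (n : N) (r : ℝ), r ∈ Icc 0 Real.pi →
      (Φ (g (n, r, 0))).re * a - (Φ (g (n, r, 0))).im * b =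
        2 * Real.sin r * ∫ t in (0 : ℝ)..2 * Real.pi, f (cur (n, r) t) := by
    intro n r hr
    have h1 : ∀ t : ℝ, (Φ (g (n, r, 0))).re * vel (fun s => x (cur (n, r) s)) t -
        (Φ (g (n, r, 0))).im * vel (fun s => y (cur (n, r) s)) t =
        2 * Real.sin r * f (cur (n, r) t) := by
      intro t
      have h2 := pullback_cur α Φ g x y hg hx hy (n, r) (fun t s => hfib n r hr _ _) t
      have h3 := (hf2 (cur (n, r) t) hr).2 (0, 0, 1)
      rw [torsion_cur αp αm (n, r) t] at h3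
      rw [h2] at h3
      have h4 : cur (n, r) (0 : ℝ) = (n, r, 0) := rfl
      rw [h4] at h3
      rw [h3]
      ring
    have hvx := vel_continuous _ (c_smooth x hx (n, r))
    have hvy := vel_continuous _ (c_smooth y hy (n, r))
    have hix : IntervalIntegrable
        (fun t => (Φ (g (n, r, 0))).re * vel (fun s => x (cur (n, r) s)) t)
        MeasureTheory.volume 0 (2 * Real.pi) := (continuous_const.mul hvx).intervalIntegrable _ _
    have hiy : IntervalIntegrable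
        (fun t => (Φ (g (n, r, 0))).im * vel (fun s => y (cur (n, r) s)) t)
        MeasureTheory.volume 0 (2 * Real.pi) := (continuous_const.mul hvy).intervalIntegrable _ _
    calc (Φ (g (n, r, 0))).re * a - (Φ (g (n, r, 0))).im * b
        = (Φ (g (n, r, 0))).re *
            (∫ t in (0 : ℝ)..2 * Real.pi, vel (fun s => x (cur (n, r) s)) t) -
          (Φ (g (n, r, 0))).im *
            (∫ t in (0 : ℝ)..2 * Real.pi, vel (fun s => y (cur (n, r) s)) t) := by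
          rw [← hax (n, r), ← hby (n, r)]
          rfl
      _ = ∫ t in (0 : ℝ)..2 * Real.pi,
            ((Φ (g (n, r, 0))).re * vel (fun s => x (cur (n, r) s)) t -
              (Φ (g (n, r, 0))).im * vel (fun s => y (cur (n, r) s)) t) := by
          rw [intervalIntegral.integral_sub hix hiy,
            intervalIntegral.integral_const_mul, intervalIntegral.integral_const_mul]
      _ = ∫ t in (0 : ℝ)..2 * Real.pi, 2 * Real.sin r * f (cur (n, r) t) := by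
          simp only [h1]
      _ = _ := by rw [intervalIntegral.integral_const_mul]
  -- the sign of the conformal factor
  have hKc : IsPreconnected {q : N × ℝ × ℝ | q.2.1 ∈ Icc 0 Real.pi} := by
    have h1 : {q : N × ℝ × ℝ | q.2.1 ∈ Icc 0 Real.pi} =
        (univ : Set N) ×ˢ (Icc 0 Real.pi ×ˢ (univ : Set ℝ)) := by
      ext q
      simp
    rw [h1]
    exact isPreconnected_univ.prod (isPreconnected_Icc.prod isPreconnected_univ)
  have hsign : ∃ σ : ℝ, σ ≠ 0 ∧ ∀ q : N × ℝ × ℝ, q.2.1 ∈ Icc 0 Real.pi → 0 < σ * f q := by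
    have himg := hKc.image f hf
    have hq0 : (n₀, (0 : ℝ), (0 : ℝ)) ∈ {q : N × ℝ × ℝ | q.2.1 ∈ Icc 0 Real.pi} :=
      ⟨le_rfl, Real.pi_pos.le⟩
    have hno : ∀ q q' : N × ℝ × ℝ, q.2.1 ∈ Icc 0 Real.pi → q'.2.1 ∈ Icc 0 Real.pi →
        f q < 0 → ¬ 0 < f q' := by
      intro q q' hq hq' h1 h2
      have h3 := himg.ordConnected.out (mem_image_of_mem f hq) (mem_image_of_mem f hq')
      obtain ⟨y, hy, hy0⟩ := h3 ⟨h1.le, h2.le⟩
      exact (hf2 y hy).1 hy0
    rcases lt_or_gt_of_ne (hf2 _ hq0).1 with h1 | h1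
    · refine ⟨-1, by norm_num, fun q hq => ?_⟩
      have h2 := hno _ q hq0 hq h1
      have h3 := (hf2 q hq).1
      have h4 : f q < 0 := lt_of_le_of_ne (not_lt.1 h2) h3
      linarith
    · refine ⟨1, by norm_num, fun q hq => ?_⟩
      have h2 : ¬ f q < 0 := fun h3 => hno q _ hq hq0 h3 h1
      have h3 := (hf2 q hq).1
      have h4 : 0 < f q := lt_of_le_of_ne (not_lt.1 h2) (Ne.symm h3)
      linarith
  obtain ⟨σ, hσ, hσf⟩ := hsign
  set w : ℂ := σ * (a + b * Complex.I) with hw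
  have hre : ∀ m : M, (Φ m * w).re = σ * ((Φ m).re * a - (Φ m).im * b) := by
    intro m
    rw [hw]
    simp only [Complex.mul_re, Complex.mul_im, Complex.add_re, Complex.add_im, Complex.ofReal_re,
      Complex.ofReal_im, Complex.I_re, Complex.I_im]
    ring
  have hval : ∀ q : N × ℝ × ℝ, q.2.1 ∈ Icc 0 Real.pi →
      (Φ (ψ q).1 * w).re = 2 * Real.sin q.2.1 *
        ∫ t in (0 : ℝ)..2 * Real.pi, σ * f (cur (q.1, q.2.1) t) := by
    intro q hq
    have h1 : (ψ q).1 = g (q.1, q.2.1, 0) := hfib q.1 q.2.1 hq q.2.2 0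
    rw [hre, h1, hint q.1 q.2.1 hq, intervalIntegral.integral_const_mul]
    ring
  have hcur : ∀ (n : N) (r : ℝ), Continuous fun t => cur (n, r) t := fun n r => by
    unfold cur
    fun_prop
  have hpos : ∀ q : N × ℝ × ℝ, q.2.1 ∈ Ioo 0 Real.pi → 0 < (Φ (ψ q).1 * w).re := by
    intro q hq
    have hq' : q.2.1 ∈ Icc 0 Real.pi := ⟨hq.1.le, hq.2.le⟩
    rw [hval q hq']
    refine mul_pos (mul_pos two_pos (Real.sin_pos_of_pos_of_lt_pi hq.1 hq.2)) ?_
    refine intervalIntegral.intervalIntegral_pos_of_pos ?_ (fun t => hσf _ hq')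
      (by linarith [Real.pi_pos])
    refine Continuous.intervalIntegrable ?_ _ _
    exact continuous_const.mul (hf.comp_continuous (hcur q.1 q.2.1) fun t => hq')
  have hzero : ∀ q : N × ℝ × ℝ, q.2.1 = 0 ∨ q.2.1 = Real.pi →
      (Φ (ψ q).1 * w).re = 0 := by
    intro q hq
    have hq' : q.2.1 ∈ Icc 0 Real.pi := by
      rcases hq with h1 | h1
      · rw [h1]; exact ⟨le_rfl, Real.pi_pos.le⟩
      · rw [h1]; exact ⟨Real.pi_pos.le, le_rfl⟩
    rw [hval q hq']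
    have h1 : Real.sin q.2.1 = 0 := by
      rcases hq with h1 | h1
      · rw [h1, Real.sin_zero]
      · rw [h1, Real.sin_pi]
    rw [h1]
    ring
  have hw0 : w ≠ 0 := by
    intro h1
    have h2 := hpos (n₀, Real.pi / 2, 0) ⟨by linarith [Real.pi_pos], by linarith [Real.pi_pos]⟩
    rw [h1] at h2
    simp at h2
  have hUeq : {p : M × Circle × Circle | 0 < (Φ p.1 * w).re} =
      {m | 0 < (Φ m * w).re} ×ˢ univ := by
    ext p
    simp
  have hZeq : {p : M × Circle × Circle | (Φ p.1 * w).re = 0} =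
      {m | (Φ m * w).re = 0} ×ˢ univ := by
    ext p
    simp
  -- periodicity and injectivity
  have hper : ∀ n r t, ψ (n, r, t + 2 * Real.pi) = ψ (n, r, t) := by
    intro n r t
    obtain ⟨h1, h2, h3⟩ := hψ.periodic n r t
    rw [hψdef]
    unfold toW
    refine Prod.ext h1 (Prod.ext ?_ ?_)
    · exact Circle.ext h2
    · exact Circle.ext h3
  have hinj : ∀ q q' : N × ℝ × ℝ, q.2.1 ∈ Icc 0 Real.pi → q'.2.1 ∈ Icc 0 Real.pi →
      ψ q = ψ q' → q.2.1 = q'.2.1 := by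
    rintro ⟨n, r, t⟩ ⟨n', r', t'⟩ hq hq' heq
    have hp1 : Function.Periodic (fun u => ψ (n, r, u)) (2 * Real.pi) := fun u => hper n r u
    have hp2 : Function.Periodic (fun u => ψ (n', r', u)) (2 * Real.pi) := fun u => hper n' r' u
    obtain ⟨u, hu, hu2⟩ := hp1.exists_mem_Ico₀ Real.two_pi_pos t
    obtain ⟨u', hu', hu2'⟩ := hp2.exists_mem_Ico₀ Real.two_pi_pos t'
    have h1 : ψ (n, r, u) = ψ (n', r', u') := by
      rw [← show ψ (n, r, t) = ψ (n, r, u) from hu2, ← show ψ (n', r', t') = ψ (n', r', u') from hu2']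
      exact heq
    have h2 : (g (n, r, u), x (n, r, u), y (n, r, u)) =
        (g (n', r', u'), x (n', r', u'), y (n', r', u')) := by
      have h3 := congrArg Prod.fst h1
      have h4 := congrArg (fun p : M × Circle × Circle => (p.2.1 : ℂ)) h1
      have h5 := congrArg (fun p : M × Circle × Circle => (p.2.2 : ℂ)) h1
      exact Prod.ext h3 (Prod.ext h4 h5)
    have h3 := hψ.inj (show (n, r, u) ∈ {q : N × ℝ × ℝ | q.2.1 ∈ Icc 0 Real.pi ∧
      q.2.2 ∈ Ico 0 (2 * Real.pi)} from ⟨hq, hu⟩)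
      (show (n', r', u') ∈ {q : N × ℝ × ℝ | q.2.1 ∈ Icc 0 Real.pi ∧
      q.2.2 ∈ Ico 0 (2 * Real.pi)} from ⟨hq', hu'⟩) h2
    have h4 := congrArg (fun p : N × ℝ × ℝ => p.2.1) h3
    exact h4
  refine topo_core ψ hcont (2 * Real.pi) Real.two_pi_pos hper (fun p => (Φ p.1 * w).re)
    Real.pi Real.pi_pos hinj hpos hzero ?_ ?_ ?_ ?_
  · intro q hq
    refine map_nhds_of_surj (I := 𝓘(ℝ, E).prod 𝓘(ℝ, ℝ × ℝ))
      (J := 𝓘(ℝ, E).prod ((𝓡 1).prod (𝓡 1))) ψ (hs.of_le (by simp)) q ?_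
    have hq' : q.2.1 ∈ Icc 0 Real.pi := ⟨hq.1.le, hq.2.le⟩
    have hfin : Module.finrank ℝ (E × ℝ × ℝ) =
        Module.finrank ℝ (E × EuclideanSpace ℝ (Fin 1) × EuclideanSpace ℝ (Fin 1)) := by
      simp [Module.finrank_prod]
    refine surj_of_inj (A := E × ℝ × ℝ)
      (B := E × EuclideanSpace ℝ (Fin 1) × EuclideanSpace ℝ (Fin 1)) hfin
      (mfderiv (𝓘(ℝ, E).prod 𝓘(ℝ, ℝ × ℝ)) (𝓘(ℝ, E).prod ((𝓡 1).prod (𝓡 1))) ψ q) ?_
    rw [injective_iff_map_eq_zero]
    intro v hv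
    obtain ⟨h1, h2, h3⟩ := toW_deriv g x y hnorm hg hx hy q v hv
    exact hψ.immersion q hq' v h1 h2 h3
  · rw [hUeq]
    exact (pos_preconnected hΦ w hw0).prod isPreconnected_univ
  · rw [hZeq]
    exact (zero_preconnected hΦ w hw0).prod isPreconnected_univ
  · rw [hUeq, hZeq, closure_prod_eq, closure_univ]
    exact prod_mono (zero_subset_closure hΦ w hw0) subset_rfl

end Pool.Agent.BourgeoisTorsion
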